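import Mathlib

/-!
# A maximal ideal on `ω` which is the union of a strictly increasing `ω₁`-chain of ideals

We prove in `ZFC` (that is, without any further hypothesis) that there is a strictly increasing
sequence `⟨J a : a < ω₁⟩` of ideals on `ω` whose union is a maximal ideal.

Proof.  Let `A i`, `i < ω₁`, be an independent family of subsets of `ω`, and for a finite partial
function `c` from `ω₁` to `2` let `X c` be the corresponding finite Boolean combination.  Let `F`
be a maximal filter for which all `X c` are positive.  By maximality every `B ⊆ ω` is decided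
modulo `F` by an extension of every given `c`.  Let `C a` be the algebra of those `B` for which
the extension need only use new coordinates below `a`.  By a countable closing-off argument every
`B` lies in some `C a`, `a < ω₁`.  If `U` is an ultrafilter containing `F`, the filters generated
by `F` and `U ∩ C a` are strictly increasing with union `U`.
-/

namespace Pool.Agent.Results.MP_ea2126_lc.MaximalIdealChain

open Set Filter

/-- An ideal on `ω`: a family of subsets of `ω` which does not contain `ω`, contains the empty set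
(the union of the empty family), is closed under binary unions (hence under finite unions) and
under subsets. -/
structure IsIdeal (J : Set (Set ℕ)) : Prop where
  univ_notMem : (Set.univ : Set ℕ) ∉ J
  empty_mem : (∅ : Set ℕ) ∈ J
  union_mem : ∀ A ∈ J, ∀ B ∈ J, A ∪ B ∈ J
  subset_mem : ∀ A ∈ J, ∀ B, B ⊆ A → B ∈ J

/-- A maximal ideal on `ω`: an ideal not properly contained in another ideal. -/
def IsMaximalIdeal (I : Set (Set ℕ)) : Prop :=
  IsIdeal I ∧ ∀ K : Set (Set ℕ), IsIdeal K → I ⊆ K → K = I

section Abstract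

universe u

variable {I : Type u} (A : I → Set ℕ)

/-- The finite Boolean combination given by a finite set of pairs. -/
private def X (c : Finset (I × Bool)) : Set ℕ := {n | ∀ p ∈ c, (n ∈ A p.1 ↔ p.2 = true)}

/-- `c` is (the graph of) a finite partial function. -/
private def Con (c : Finset (I × Bool)) : Prop := ∀ i, ¬ ((i, true) ∈ c ∧ (i, false) ∈ c)

variable {A}

private lemma X_mono {c d : Finset (I × Bool)} (h : c ⊆ d) : X A d ⊆ X A c :=
  fun _ hn p hp => hn p (h hp)

private lemma Con.mono {c d : Finset (I × Bool)} (h : c ⊆ d) (hd : Con d) : Con c :=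
  fun i hi => hd i ⟨h hi.1, h hi.2⟩

open Classical in
private lemma X_union (c d : Finset (I × Bool)) : X A (c ∪ d) = X A c ∩ X A d := by
  ext n
  simp only [X, Finset.mem_union, mem_ofPred_eq, mem_inter_iff]
  constructor
  · intro h
    exact ⟨fun p hp => h p (Or.inl hp), fun p hp => h p (Or.inr hp)⟩
  · rintro ⟨h1, h2⟩ p (hp | hp)
    · exact h1 p hp
    · exact h2 p hp

open Classical in
private lemma disjoint_of_not_con {c d : Finset (I × Bool)} (h : ¬ Con (c ∪ d)) :
    X A c ⊆ (X A d)ᶜ := by
  intro n hc hd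
  apply h
  intro i hi
  have hn : n ∈ X A (c ∪ d) := by rw [X_union]; exact ⟨hc, hd⟩
  have h1 := (hn _ hi.1).2 rfl
  have h2 := (hn _ hi.2).1 h1
  exact absurd h2 (by simp)

/-- `F` is a filter for which all `X c` are positive. -/
private def Pos (A : I → Set ℕ) (F : Filter ℕ) : Prop := ∀ c, Con c → (X A c)ᶜ ∉ F

private lemma exists_max (hA : ∀ c, Con c → (X A c).Nonempty) :
    ∃ F : Filter ℕ, Pos A F ∧ ∀ G : Filter ℕ, Pos A G → G ≤ F → G = F := by
  have hz := zorn_le₀ (α := (Filter ℕ)ᵒᵈ) {F | Pos A (OrderDual.ofDual F)} (by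
    intro C hC hch
    rcases C.eq_empty_or_nonempty with hE | hne
    · refine ⟨OrderDual.toDual ⊤, ?_, by simp [hE]⟩
      intro c hc h
      have : (X A c)ᶜ = univ := by simpa using h
      obtain ⟨n, hn⟩ := hA c hc
      have h2 : n ∈ (X A c)ᶜ := by rw [this]; trivial
      exact h2 hn
    · refine ⟨OrderDual.toDual (sInf (OrderDual.toDual ⁻¹' C)), ?_, ?_⟩
      · intro c hc h
        have hdir : DirectedOn (· ≥ ·) (OrderDual.toDual ⁻¹' C : Set (Filter ℕ)) := by
          intro F hF G hG
          rcases hch.total hF hG with h | h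
          · exact ⟨G, hG, h, le_refl _⟩
          · exact ⟨F, hF, le_refl _, h⟩
        have hne' : (OrderDual.toDual ⁻¹' C : Set (Filter ℕ)).Nonempty := hne
        have h' : (X A c)ᶜ ∈ ⨅ F ∈ (OrderDual.toDual ⁻¹' C : Set (Filter ℕ)), F := by
          rw [← sInf_eq_iInf]; exact h
        rw [Filter.mem_biInf_of_directed hdir hne'] at h'
        obtain ⟨F, hF, hcF⟩ := h'
        exact hC hF c hc hcF
      · intro F hF
        exact sInf_le (α := Filter ℕ) hF)
  obtain ⟨F, hF⟩ := hz
  refine ⟨OrderDual.ofDual F, hF.1, fun G hG hle => ?_⟩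
  exact le_antisymm hle (hF.2 (y := OrderDual.toDual G) hG hle)

/-- `c` forces `B` modulo `F`. -/
private def Forces (A : I → Set ℕ) (F : Filter ℕ) (c : Finset (I × Bool)) (B : Set ℕ) : Prop :=
  (X A c)ᶜ ∪ B ∈ F

private lemma Forces.mono {F : Filter ℕ} {c d : Finset (I × Bool)} {B : Set ℕ} (h : c ⊆ d)
    (hc : Forces A F c B) : Forces A F d B := by
  refine mem_of_superset hc ?_
  exact union_subset_union_left _ (compl_subset_compl.2 (X_mono h))

/-- the key consequence of maximality -/
private lemma key {F : Filter ℕ}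
    (hmax : Pos A F ∧ ∀ G : Filter ℕ, Pos A G → G ≤ F → G = F) (D : Set ℕ)
    (hD : ∀ c, Con c → ¬ Forces A F c Dᶜ) : D ∈ F := by
  have h := hmax.2 (F ⊓ 𝓟 D) (by
    intro c hc h
    rw [Filter.mem_inf_principal] at h
    apply hD c hc
    refine mem_of_superset h ?_
    intro n hn
    by_cases hnD : n ∈ D
    · exact Or.inl (hn hnD)
    · exact Or.inr hnD) inf_le_left
  rw [← h]
  exact mem_inf_of_right (mem_principal_self D)

open Classical in
private lemma decide_ext {F : Filter ℕ}
    (hmax : Pos A F ∧ ∀ G : Filter ℕ, Pos A G → G ≤ F → G = F) (B : Set ℕ)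
    (g : Finset (I × Bool)) (hg : Con g) :
    ∃ h, g ⊆ h ∧ Con h ∧ (Forces A F h B ∨ Forces A F h Bᶜ) := by
  by_contra hno
  push Not at hno
  have h1 : (X A g)ᶜ ∪ B ∈ F := by
    apply key hmax
    intro c hc hf
    by_cases hcon : Con (g ∪ c)
    · apply (hno _ Finset.subset_union_left hcon).2
      refine mem_of_superset hf ?_
      intro n hn
      rcases hn with hn | hn
      · exact Or.inl (fun h => hn (X_mono Finset.subset_union_right h))
      · by_cases hB : n ∈ B
        · exact absurd (Or.inr hB) hn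
        · exact Or.inr hB
    · apply hmax.1 c hc
      refine mem_of_superset hf ?_
      intro n hn
      rcases hn with hn | hn
      · exact hn
      · intro hc'
        apply hn
        left
        intro hg'
        exact disjoint_of_not_con hcon hg' hc'
  exact (hno g (Finset.Subset.refl _) hg).1 h1

private lemma mem_of_dense {F : Filter ℕ}
    (hmax : Pos A F ∧ ∀ G : Filter ℕ, Pos A G → G ≤ F → G = F) (B : Set ℕ)
    (hB : ∀ g, Con g → ∃ h, g ⊆ h ∧ Con h ∧ Forces A F h B) : B ∈ F := by
  apply key hmax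
  intro c hc hf
  obtain ⟨h, hch, hcon, hfh⟩ := hB c hc
  apply hmax.1 h hcon
  filter_upwards [hfh, hf.mono hch] with n h1 h2
  rcases h1 with h1 | h1
  · exact h1
  · rcases h2 with h2 | h2
    · exact h2
    · exact absurd h1 h2

variable [LinearOrder I]

/-- `B` is decided, over every condition, by adding coordinates below `a`. -/
private def Cset (A : I → Set ℕ) (F : Filter ℕ) (a : I) : Set (Set ℕ) :=
  {B | ∀ g, Con g → ∃ h, g ⊆ h ∧ Con h ∧ (Forces A F h B ∨ Forces A F h Bᶜ) ∧
    ∀ p ∈ h, p ∈ g ∨ p.1 < a}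

private lemma Cset_mono {F : Filter ℕ} {a b : I} (hab : a ≤ b) : Cset A F a ⊆ Cset A F b := by
  intro B hB g hg
  obtain ⟨h, h1, h2, h3, h4⟩ := hB g hg
  exact ⟨h, h1, h2, h3, fun p hp => (h4 p hp).imp id (fun h => lt_of_lt_of_le h hab)⟩

private lemma Cset_compl {F : Filter ℕ} {a : I} {B : Set ℕ} (hB : B ∈ Cset A F a) :
    Bᶜ ∈ Cset A F a := by
  intro g hg
  obtain ⟨h, h1, h2, h3, h4⟩ := hB g hg
  refine ⟨h, h1, h2, ?_, h4⟩
  rw [compl_compl]
  exact h3.symm

private lemma Cset_inter {F : Filter ℕ} {a : I} {B B' : Set ℕ} (hB : B ∈ Cset A F a)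
    (hB' : B' ∈ Cset A F a) : B ∩ B' ∈ Cset A F a := by
  intro g hg
  obtain ⟨h, h1, h2, h3, h4⟩ := hB g hg
  obtain ⟨h', h1', h2', h3', h4'⟩ := hB' h h2
  refine ⟨h', h1.trans h1', h2', ?_, ?_⟩
  · rcases h3 with h3 | h3
    · rcases h3' with h3' | h3'
      · left
        filter_upwards [h3.mono h1', h3'] with n hn hn'
        rcases hn with hn | hn
        · exact Or.inl hn
        · rcases hn' with hn' | hn'
          · exact Or.inl hn'
          · exact Or.inr ⟨hn, hn'⟩
      · right
        refine mem_of_superset h3' (union_subset_union_right _ ?_)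
        exact compl_subset_compl.2 inter_subset_right
    · right
      refine mem_of_superset (h3.mono h1') (union_subset_union_right _ ?_)
      exact compl_subset_compl.2 inter_subset_left
  · intro p hp
    rcases h4' p hp with h | h
    · exact h4 p h
    · exact Or.inr h

open Classical in
private lemma A_mem_Cset {F : Filter ℕ} {a b : I} (hab : a < b) : A a ∈ Cset A F b := by
  intro g hg
  by_cases h1 : (a, true) ∈ g
  · refine ⟨g, Finset.Subset.refl _, hg, Or.inl ?_, fun p hp => Or.inl hp⟩
    refine mem_of_superset univ_mem ?_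
    intro n _
    by_cases hn : n ∈ X A g
    · exact Or.inr ((hn _ h1).2 rfl)
    · exact Or.inl hn
  · refine ⟨g ∪ {(a, false)}, Finset.subset_union_left, ?_, Or.inr ?_, ?_⟩
    · intro i hi
      simp only [Finset.mem_union, Finset.mem_singleton, Prod.mk.injEq] at hi
      obtain ⟨hi1, hi2⟩ := hi
      rcases hi1 with hi1 | hi1
      · rcases hi2 with hi2 | hi2
        · exact hg i ⟨hi1, hi2⟩
        · rw [hi2.1] at hi1; exact h1 hi1
      · exact absurd hi1.2 (by simp)
    · refine mem_of_superset univ_mem ?_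
      intro n _
      by_cases hn : n ∈ X A (g ∪ {(a, false)})
      · right
        have := hn (a, false) (by simp)
        intro hc
        exact absurd (this.1 hc) (by simp)
      · exact Or.inl hn
    · intro p hp
      simp only [Finset.mem_union, Finset.mem_singleton] at hp
      rcases hp with hp | hp
      · exact Or.inl hp
      · right; rw [hp]; exact hab

open Classical in
/-- every set is decided over a countable set of coordinates -/
private lemma exists_Cset {F : Filter ℕ}
    (hmax : Pos A F ∧ ∀ G : Filter ℕ, Pos A G → G ≤ F → G = F)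
    (hbdd : ∀ S : Set I, S.Countable → ∃ a, ∀ s ∈ S, s < a) (B : Set ℕ) :
    ∃ a, B ∈ Cset A F a := by
  choose! H hH1 hH2 hH3 using fun g hg => decide_ext hmax B g hg
  let step : Set I → Set I := fun S =>
    S ∪ ⋃ g ∈ {g : Finset (I × Bool) | (g : Set (I × Bool)) ⊆ S ×ˢ univ}, Prod.fst '' (H g : Set (I × Bool))
  have hstep : ∀ S : Set I, S.Countable → (step S).Countable := by
    intro S hS
    refine hS.union ?_
    refine Set.Countable.biUnion ?_ ?_
    · have h1 : (S ×ˢ (univ : Set Bool)).Countable := hS.prod (Set.to_countable _)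
      have h2 := Set.countable_ofPred_finite_subset h1
      refine (h2.preimage (f := fun g : Finset (I × Bool) => (g : Set (I × Bool)))
        Finset.coe_injective).mono ?_
      intro g hg
      exact ⟨Finset.finite_toSet g, hg⟩
    · intro g _
      exact ((Finset.finite_toSet _).image _).countable
  let S : ℕ → Set I := fun n => step^[n] ∅
  have hS : ∀ n, (S n).Countable := by
    intro n
    induction n with
    | zero => exact Set.countable_empty
    | succ n ih => simp only [S, Function.iterate_succ_apply']; exact hstep _ ih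
  have hSm : Monotone S := by
    apply monotone_nat_of_le_succ
    intro n
    simp only [S, Function.iterate_succ_apply']
    exact subset_union_left
  obtain ⟨a, ha⟩ := hbdd (⋃ n, S n) (Set.countable_iUnion hS)
  refine ⟨a, ?_⟩
  intro g hg
  -- restrict `g` to the closed set
  let g' := g.filter (fun p => p.1 ∈ ⋃ n, S n)
  have hg'g : g' ⊆ g := Finset.filter_subset _ _
  have hg' : Con g' := hg.mono hg'g
  have hsub : ∃ n, (g' : Set (I × Bool)) ⊆ S n ×ˢ univ := by
    have hfin : ∀ p ∈ g', ∃ n, p.1 ∈ S n := by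
      intro p hp
      simpa using (Finset.mem_filter.1 hp).2
    choose! N hN using hfin
    refine ⟨g'.sup N, ?_⟩
    intro p hp
    exact ⟨hSm (Finset.le_sup hp) (hN p hp), trivial⟩
  obtain ⟨n, hn⟩ := hsub
  have hHsub : ∀ p ∈ H g', p.1 ∈ ⋃ n, S n := by
    intro p hp
    refine mem_iUnion.2 ⟨n + 1, ?_⟩
    simp only [S, Function.iterate_succ_apply']
    right
    exact mem_iUnion₂.2 ⟨g', hn, p, hp, rfl⟩
  refine ⟨g ∪ H g', Finset.subset_union_left, ?_, ?_, ?_⟩
  · intro i hi
    simp only [Finset.mem_union] at hi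
    obtain ⟨hi1, hi2⟩ := hi
    by_cases hiS : i ∈ ⋃ n, S n
    · have h1 : (i, true) ∈ H g' := by
        rcases hi1 with h | h
        · exact hH1 g' hg' (Finset.mem_filter.2 ⟨h, hiS⟩)
        · exact h
      have h2 : (i, false) ∈ H g' := by
        rcases hi2 with h | h
        · exact hH1 g' hg' (Finset.mem_filter.2 ⟨h, hiS⟩)
        · exact h
      exact hH2 g' hg' i ⟨h1, h2⟩
    · have h1 : (i, true) ∈ g := by
        rcases hi1 with h | h
        · exact h
        · exact absurd (hHsub _ h) hiS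
      have h2 : (i, false) ∈ g := by
        rcases hi2 with h | h
        · exact h
        · exact absurd (hHsub _ h) hiS
      exact hg i ⟨h1, h2⟩
  · exact (hH3 g' hg').imp (fun h => h.mono Finset.subset_union_right)
      (fun h => h.mono Finset.subset_union_right)
  · intro p hp
    rcases Finset.mem_union.1 hp with hp | hp
    · exact Or.inl hp
    · exact Or.inr (ha _ (hHsub p hp))

open Classical in
/-- a member of `Cset a` outside the dual ideal of `F` is forced by a condition not mentioning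
`a` -/
private lemma exists_forces {F : Filter ℕ}
    (hmax : Pos A F ∧ ∀ G : Filter ℕ, Pos A G → G ≤ F → G = F) {a : I} {C : Set ℕ}
    (hC : C ∈ Cset A F a) (hCF : Cᶜ ∉ F) :
    ∃ h, Con h ∧ (∀ p ∈ h, p.1 ≠ a) ∧ Forces A F h C := by
  by_contra hno
  push Not at hno
  apply hCF
  apply mem_of_dense hmax
  intro g hg
  let g' := g.filter (fun p => p.1 ≠ a)
  have hg'g : g' ⊆ g := Finset.filter_subset _ _
  obtain ⟨h, h1, h2, h3, h4⟩ := hC g' (hg.mono hg'g)
  have h5 : ∀ p ∈ h, p.1 ≠ a := by
    intro p hp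
    rcases h4 p hp with h | h
    · exact (Finset.mem_filter.1 h).2
    · exact ne_of_lt h
  refine ⟨g ∪ h, Finset.subset_union_left, ?_, ?_⟩
  · intro i hi
    simp only [Finset.mem_union] at hi
    obtain ⟨hi1, hi2⟩ := hi
    by_cases hia : i = a
    · subst hia
      have h6 : (i, true) ∈ g := by
        rcases hi1 with h | h
        · exact h
        · exact absurd rfl (h5 _ h)
      have h7 : (i, false) ∈ g := by
        rcases hi2 with h | h
        · exact h
        · exact absurd rfl (h5 _ h)
      exact hg i ⟨h6, h7⟩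
    · have h6 : (i, true) ∈ h := by
        rcases hi1 with h | h
        · exact h1 (Finset.mem_filter.2 ⟨h, hia⟩)
        · exact h
      have h7 : (i, false) ∈ h := by
        rcases hi2 with h | h
        · exact h1 (Finset.mem_filter.2 ⟨h, hia⟩)
        · exact h
      exact h2 i ⟨h6, h7⟩
  · rcases h3 with h3 | h3
    · exact absurd h3 (hno h h2 h5)
    · exact h3.mono Finset.subset_union_right

/-- The filter at stage `a`. -/
private def Fil (A : I → Set ℕ) (F : Filter ℕ) (U : Ultrafilter ℕ) (a : I) : Set (Set ℕ) :=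
  {B | ∃ C ∈ Cset A F a, C ∈ U ∧ Cᶜ ∪ B ∈ F}

open Classical in
private lemma main [Nonempty I] (hA : ∀ c, Con c → (X A c).Nonempty)
    (hbdd : ∀ S : Set I, S.Countable → ∃ a, ∀ s ∈ S, s < a) :
    ∃ J : I → Set (Set ℕ), (∀ a, IsIdeal (J a)) ∧ (∀ a b, a < b → J a ⊂ J b) ∧
      IsMaximalIdeal (⋃ a, J a) := by
  obtain ⟨F, hmax⟩ := exists_max hA
  have hFne : F.NeBot := by
    rw [Filter.neBot_iff]
    rintro rfl
    exact hmax.1 ∅ (fun i hi => by simp at hi) (by simp)
  obtain ⟨U, hU⟩ : ∃ U : Ultrafilter ℕ, (U : Filter ℕ) ≤ F := ⟨Ultrafilter.of F, Ultrafilter.of_le F⟩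
  have hsubU : ∀ a B, B ∈ Fil A F U a → B ∈ U := by
    rintro a B ⟨C, -, hCU, hCB⟩
    have h1 : Cᶜ ∪ B ∈ U := hU hCB
    filter_upwards [h1, hCU] with n hn hn'
    rcases hn with hn | hn
    · exact absurd hn' hn
    · exact hn
  have hmono : ∀ a b, a ≤ b → Fil A F U a ⊆ Fil A F U b := by
    rintro a b hab B ⟨C, hC, h⟩
    exact ⟨C, Cset_mono hab hC, h⟩
  have hinter : ∀ a B B', B ∈ Fil A F U a → B' ∈ Fil A F U a → B ∩ B' ∈ Fil A F U a := by
    rintro a B B' ⟨C, hC, hCU, hCB⟩ ⟨C', hC', hCU', hCB'⟩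
    refine ⟨C ∩ C', Cset_inter hC hC', inter_mem hCU hCU', ?_⟩
    filter_upwards [hCB, hCB'] with n hn hn'
    rcases hn with hn | hn
    · exact Or.inl (fun h => hn h.1)
    · rcases hn' with hn' | hn'
      · exact Or.inl (fun h => hn' h.2)
      · exact Or.inr ⟨hn, hn'⟩
  have hsup : ∀ a B B', B ∈ Fil A F U a → B ⊆ B' → B' ∈ Fil A F U a := by
    rintro a B B' ⟨C, hC, hCU, hCB⟩ hBB'
    exact ⟨C, hC, hCU, mem_of_superset hCB (union_subset_union_right _ hBB')⟩
  have huniv : ∀ a, univ ∈ Fil A F U a := by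
    intro a
    refine ⟨univ, ?_, univ_mem, by simp⟩
    intro g hg
    exact ⟨g, Finset.Subset.refl _, hg, Or.inl (by simp [Forces]), fun p hp => Or.inl hp⟩
  have hUn : ∀ B, B ∈ U → ∃ a, B ∈ Fil A F U a := by
    intro B hB
    obtain ⟨a, ha⟩ := exists_Cset hmax hbdd B
    exact ⟨a, B, ha, hB, by simp⟩
  have hstrict : ∀ a b, a < b → ∃ B, B ∈ Fil A F U b ∧ B ∉ Fil A F U a := by
    intro a b hab
    -- the side chosen by the ultrafilter
    have hside : ∃ e : Bool, {n | n ∈ A a ↔ e = true} ∈ U := by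
      rcases Ultrafilter.mem_or_compl_mem U (A a) with h | h
      · exact ⟨true, by simpa using h⟩
      · refine ⟨false, ?_⟩
        refine mem_of_superset h ?_
        intro n hn
        have hn' : n ∉ A a := hn
        exact ⟨fun h => absurd h hn', fun h => absurd h (by simp)⟩
    obtain ⟨e, he⟩ := hside
    have hset : {n | n ∈ A a ↔ e = true} ∈ Cset A F b := by
      cases e
      · have := Cset_compl (A_mem_Cset (A := A) (F := F) hab)
        convert this using 1
        ext n
        exact ⟨fun h hn => absurd (h.1 hn) (by simp),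
          fun h => ⟨fun hn => absurd hn h, fun h' => absurd h' (by simp)⟩⟩
      · have := A_mem_Cset (A := A) (F := F) hab
        convert this using 1
        ext n
        exact ⟨fun h => h.2 rfl, fun h => ⟨fun _ => rfl, fun _ => h⟩⟩
    refine ⟨{n | n ∈ A a ↔ e = true}, ⟨_, hset, he, ?_⟩, ?_⟩
    · rw [compl_union_self]; exact univ_mem
    rintro ⟨C, hC, hCU, hCe⟩
    have hCF : Cᶜ ∉ F := by
      intro h
      have h1 : Cᶜ ∈ U := hU h
      exact (Ultrafilter.compl_mem_iff_notMem.1 h1) hCU
    obtain ⟨h, hcon, hha, hf⟩ := exists_forces hmax hC hCF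
    apply hmax.1 (h ∪ {(a, !e)})
    · intro i hi
      simp only [Finset.mem_union, Finset.mem_singleton, Prod.mk.injEq] at hi
      obtain ⟨hi1, hi2⟩ := hi
      rcases hi1 with hi1 | hi1
      · rcases hi2 with hi2 | hi2
        · exact hcon i ⟨hi1, hi2⟩
        · exact hha _ hi1 hi2.1
      · rcases hi2 with hi2 | hi2
        · exact hha _ hi2 hi1.1
        · rw [← hi2.2] at hi1; exact absurd hi1.2 (by simp)
    · filter_upwards [hf, hCe] with n hn hn'
      intro hX
      rcases hn with hn | hn
      · exact hn (X_mono Finset.subset_union_left hX)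
      · rcases hn' with hn' | hn'
        · exact hn' hn
        · have h1 := hX (a, !e) (by simp)
          have h2 : n ∈ A a ↔ e = true := hn'
          cases e
          · simp at h1 h2; exact h2 h1
          · simp at h1 h2; exact h1 h2
  refine ⟨fun a => {B | Bᶜ ∈ Fil A F U a}, ?_, ?_, ?_, ?_⟩
  · intro a
    refine ⟨?_, ?_, ?_, ?_⟩
    · intro h
      have h1 : (univ : Set ℕ)ᶜ ∈ U := hsubU a _ h
      simp at h1
    · simpa using huniv a
    · intro B hB B' hB'
      have h9 := hinter a _ _ hB hB'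
      rw [← compl_union] at h9
      exact h9
    · intro B hB B' hBB'
      exact hsup a _ _ hB (compl_subset_compl.2 hBB')
  · intro a b hab
    refine ⟨fun B hB => hmono a b hab.le hB, ?_⟩
    obtain ⟨B, hB, hB'⟩ := hstrict a b hab
    intro h
    apply hB'
    have := h (show Bᶜ ∈ {B | Bᶜ ∈ Fil A F U b} by simpa using hB)
    simpa using this
  · -- the union is the dual ideal of `U`
    refine ⟨?_, ?_, ?_, ?_⟩
    · intro h
      obtain ⟨a, ha⟩ := mem_iUnion.1 h
      have h1 : (univ : Set ℕ)ᶜ ∈ U := hsubU a _ ha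
      simp at h1
    · obtain ⟨a⟩ := ‹Nonempty I›
      exact mem_iUnion.2 ⟨a, by simpa using huniv a⟩
    · intro B hB B' hB'
      obtain ⟨a, ha⟩ := mem_iUnion.1 hB
      obtain ⟨b, hb⟩ := mem_iUnion.1 hB'
      refine mem_iUnion.2 ⟨max a b, ?_⟩
      have h9 := hinter _ _ _ (hmono _ _ (le_max_left a b) ha) (hmono _ _ (le_max_right a b) hb)
      rw [← compl_union] at h9
      exact h9
    · intro B hB B' hBB'
      obtain ⟨a, ha⟩ := mem_iUnion.1 hB
      exact mem_iUnion.2 ⟨a, hsup a _ _ ha (compl_subset_compl.2 hBB')⟩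
  · intro K hK hsub
    refine Subset.antisymm ?_ hsub
    intro B hB
    have h1 : Bᶜ ∈ U := by
      by_contra h
      have h2 : B ∈ U := by
        rcases Ultrafilter.mem_or_compl_mem U B with h' | h'
        · exact h'
        · exact absurd h' h
      obtain ⟨a, ha⟩ := hUn B h2
      have h3 : Bᶜ ∈ K := hsub (mem_iUnion.2 ⟨a, by simpa using ha⟩)
      have h4 := hK.union_mem _ hB _ h3
      rw [union_compl_self] at h4
      exact hK.univ_notMem h4
    obtain ⟨a, ha⟩ := hUn _ h1
    exact mem_iUnion.2 ⟨a, ha⟩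

end Abstract

open Classical in
/-- An independent family indexed by the reals. -/
private lemma exists_independent {I : Type*} (x : I → ℕ → Bool) (hx : Function.Injective x) :
    ∃ A : I → Set ℕ, ∀ c, Con c → (X A c).Nonempty := by
  obtain ⟨e, he⟩ := exists_surjective_nat (Σ k : ℕ, Finset (Fin k → Bool))
  refine ⟨fun i => {n | (fun j : Fin (e n).1 => x i j) ∈ (e n).2}, ?_⟩
  intro c hc
  -- coordinates separating the finitely many points
  have hsep : ∃ k, ∀ p ∈ c, ∀ q ∈ c, (∀ j < k, x p.1 j = x q.1 j) → p.1 = q.1 := by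
    have h1 : ∀ r : (I × Bool) × (I × Bool), ∃ j, r.1.1 ≠ r.2.1 → x r.1.1 j ≠ x r.2.1 j := by
      intro r
      by_cases h : r.1.1 = r.2.1
      · exact ⟨0, fun h' => absurd h h'⟩
      · have := fun h' => h (hx h')
        obtain ⟨j, hj⟩ := Function.ne_iff.1 this
        exact ⟨j, fun _ => hj⟩
    choose J hJ using h1
    refine ⟨(c ×ˢ c).sup J + 1, ?_⟩
    intro p hp q hq h
    by_contra hne
    refine hJ (p, q) hne (h _ ?_)
    exact Nat.lt_succ_of_le (Finset.le_sup (f := J) (Finset.mem_product.2 ⟨hp, hq⟩))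
  obtain ⟨k, hk⟩ := hsep
  obtain ⟨n, hn⟩ := he ⟨k, (c.filter (fun p => p.2 = true)).image (fun p => fun j : Fin k => x p.1 j)⟩
  refine ⟨n, ?_⟩
  intro p hp
  simp only [mem_ofPred_eq]
  rw [hn]
  simp only [Finset.mem_image, Finset.mem_filter]
  constructor
  · rintro ⟨q, ⟨hq, hq2⟩, hqx⟩
    have h1 : p.1 = q.1 := by
      apply hk p hp q hq
      intro j hj
      exact (congrFun hqx ⟨j, hj⟩).symm
    by_contra hp2
    have hp2' : p.2 = false := by simpa using hp2
    apply hc p.1
    refine ⟨?_, ?_⟩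
    · rw [h1, ← hq2]; exact hq
    · rw [← hp2']; exact hp
  · intro hp2
    exact ⟨p, ⟨hp, hp2⟩, rfl⟩

open Ordinal Cardinal in
/-- **Full answer (yes, in ZFC).**  There is a strictly increasing sequence `J a`, `a < ω₁`, of
ideals on `ω` whose union is a maximal ideal on `ω`. -/
theorem result :
    ∃ J : Ordinal.{0} → Set (Set ℕ),
      (∀ a, a < Ordinal.omega 1 → IsIdeal (J a)) ∧
      (∀ a b, a < b → b < Ordinal.omega 1 → J a ⊂ J b) ∧
      IsMaximalIdeal {B | ∃ a, a < Ordinal.omega 1 ∧ B ∈ J a} := by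
  have hinj : ∃ x : Set.Iio (Ordinal.omega.{0} 1) → ℕ → Bool, Function.Injective x := by
    have h : Cardinal.lift.{0} (#(Set.Iio (Ordinal.omega.{0} 1))) ≤
        Cardinal.lift.{1} (#(ℕ → Bool)) := by
      rw [Cardinal.mk_Iio_ordinal]
      have h1 : (Ordinal.omega.{0} 1).card ≤ #(ℕ → Bool) := by
        have h2 : #(ℕ → Bool) = Cardinal.continuum.{0} := by simp
        rw [h2, Ordinal.card_omega]
        exact Cardinal.aleph_one_le_continuum
      rw [Cardinal.lift_lift]
      exact Cardinal.lift_le.2 h1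
    obtain ⟨f⟩ := Cardinal.lift_mk_le'.1 h
    exact ⟨f, f.injective⟩
  obtain ⟨x, hx⟩ := hinj
  obtain ⟨A, hA⟩ := exists_independent x hx
  have : Nonempty (Set.Iio (Ordinal.omega.{0} 1)) := ⟨⟨0, Ordinal.omega_pos 1⟩⟩
  obtain ⟨J, h1, h2, h3⟩ := main hA (by
    intro S hS
    have hS' := hS.to_subtype
    have hlt : (⨆ s : S, (Order.succ (s.1.1 : Ordinal.{0}))) < Ordinal.omega 1 :=
      Ordinal.iSup_lt_omega_one (fun s => (Cardinal.isSuccLimit_omega 1).succ_lt s.1.2)
    refine ⟨⟨_, hlt⟩, ?_⟩
    intro s hs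
    have h1 : Order.succ (s.1 : Ordinal.{0}) ≤ ⨆ s : S, (Order.succ (s.1.1 : Ordinal.{0})) := by
      refine le_ciSup (f := fun s : S => (Order.succ (s.1.1 : Ordinal.{0}))) ?_ ⟨s, hs⟩
      exact ⟨Ordinal.omega 1, by
        rintro _ ⟨t, rfl⟩
        exact ((Cardinal.isSuccLimit_omega 1).succ_lt t.1.2).le⟩
    exact Subtype.coe_lt_coe.1 (lt_of_lt_of_le (Order.lt_succ (s.1 : Ordinal.{0})) h1))
  let J' : Ordinal.{0} → Set (Set ℕ) := fun a =>
    if h : a ∈ Set.Iio (Ordinal.omega.{0} 1) then J ⟨a, h⟩ else ∅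
  have hJ' : ∀ a (h : a ∈ Set.Iio (Ordinal.omega.{0} 1)), J' a = J ⟨a, h⟩ := by
    intro a h
    simp only [J', dif_pos h]
  refine ⟨J', ?_, ?_, ?_⟩
  · intro a ha
    rw [hJ' a ha]; exact h1 _
  · intro a b hab hb
    rw [hJ' a (hab.trans hb), hJ' b hb]
    exact h2 _ _ hab
  · convert h3 using 1
    ext B
    constructor
    · rintro ⟨a, h, hB⟩
      rw [hJ' a h] at hB
      exact mem_iUnion.2 ⟨⟨a, h⟩, hB⟩
    · intro h
      obtain ⟨⟨a, h⟩, hB⟩ := mem_iUnion.1 h
      refine ⟨a, h, ?_⟩
      rw [hJ' a h]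
      exact hB

end Pool.Agent.Results.MP_ea2126_lc.MaximalIdealChain
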