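import Mathlib
import Pool.Agent.R605.ChainIdeal

open Set Cardinal Ordinal

namespace Pool.Agent.Results.MP_ea2126_lc.OmegaOneChain

/-- `J` is an ideal on `ω` (as in the problem file): `ω ∉ J`, and `J` is closed under finite unions
(including the empty one) and under taking subsets. -/
structure IsIdeal (J : Set (Set ℕ)) : Prop where
  univ_notMem : Set.univ ∉ J
  empty_mem : ∅ ∈ J
  union_mem : ∀ B ∈ J, ∀ C ∈ J, B ∪ C ∈ J
  subset_mem : ∀ B ∈ J, ∀ C ⊆ B, C ∈ J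

/-- `J` is a maximal ideal on `ω`: an ideal not properly contained in another ideal on `ω`. -/
def IsMaxIdeal (J : Set (Set ℕ)) : Prop :=
  IsIdeal J ∧ ∀ K : Set (Set ℕ), IsIdeal K → J ⊆ K → J = K

/-- In ZFC there is a strictly increasing `ω₁`-sequence of ideals on `ω` whose union is a maximal
ideal on `ω`. -/
theorem result : ∃ J : Ordinal.{0} → Set (Set ℕ),
    (∀ a < ω_ 1, IsIdeal (J a)) ∧
    (∀ a b : Ordinal.{0}, a < b → b < ω_ 1 → J a ⊂ J b) ∧
    IsMaxIdeal (⋃ a ∈ {a : Ordinal.{0} | a < ω_ 1}, J a) := by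
  classical
  have hinj : Nonempty ({a : Ordinal.{0} // a < ω_ 1} ↪ (ℕ → Bool)) := by
    rw [← Cardinal.lift_mk_le']
    have h1 : #{a : Ordinal.{0} // a < ω_ 1} = Cardinal.lift.{1, 0} ℵ₁ := by
      have := Cardinal.mk_Iio_ordinal (ω_ 1 : Ordinal.{0})
      rw [Ordinal.card_omega] at this
      exact this
    have h2 : #(ℕ → Bool) = 𝔠 := by simp
    rw [h1, h2]
    simp only [Cardinal.lift_lift]
    exact Cardinal.lift_le.mpr Cardinal.aleph_one_le_continuum
  obtain ⟨x⟩ := hinj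
  have hlim : ∀ a : Ordinal.{0}, a < ω_ 1 → Order.succ a < ω_ 1 := fun a ha =>
    (Cardinal.isSuccLimit_omega 1).succ_lt ha
  obtain ⟨J, hJ1, hJ2, hJ3⟩ := R605.ChainIdeal.exists_chain {a : Ordinal.{0} // a < ω_ 1} x x.injective
    (by
      intro S hS
      have : Countable S := hS.to_subtype
      have h1 : (⨆ s : S, Order.succ (s.1.1 : Ordinal.{0})) < ω_ 1 :=
        Ordinal.iSup_lt_omega_one fun s => hlim _ s.1.2
      refine ⟨⟨_, h1⟩, fun s hs => ?_⟩
      have h2 : Order.succ (s.1 : Ordinal.{0}) ≤ ⨆ s : S, Order.succ (s.1.1 : Ordinal.{0}) :=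
        Ordinal.le_iSup (fun s : S => Order.succ (s.1.1 : Ordinal.{0})) ⟨s, hs⟩
      exact Subtype.mk_lt_mk.mpr (lt_of_lt_of_le (Order.lt_succ _) h2))
  let J' : Ordinal.{0} → Set (Set ℕ) := fun a => if h : a < ω_ 1 then J ⟨a, h⟩ else ∅
  have hJ' : ∀ a (h : a < ω_ 1), J' a = J ⟨a, h⟩ := fun a h => dif_pos h
  have hun : (⋃ a ∈ {a : Ordinal.{0} | a < ω_ 1}, J' a) = ⋃ a, J a := by
    ext B
    simp only [mem_iUnion, exists_prop]
    constructor
    · rintro ⟨a, ha, hB⟩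
      rw [hJ' a ha] at hB
      exact ⟨_, hB⟩
    · rintro ⟨a, hB⟩
      exact ⟨a.1, a.2, by rw [hJ' a.1 a.2]; exact hB⟩
  have hid : ∀ a, IsIdeal (J a) := fun a =>
    ⟨(hJ1 a).univ_notMem, (hJ1 a).empty_mem, (hJ1 a).union_mem, (hJ1 a).subset_mem⟩
  refine ⟨J', ?_, ?_, ?_, ?_⟩
  · intro a ha
    rw [hJ' a ha]
    exact hid _
  · intro a b hab hb
    rw [hJ' a (hab.trans hb), hJ' b hb]
    exact hJ2 _ _ (Subtype.mk_lt_mk.mpr hab)
  · rw [hun]
    have hmono : ∀ a b : {a : Ordinal.{0} // a < ω_ 1}, a ≤ b → J a ⊆ J b := by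
      intro a b hab
      rcases hab.lt_or_eq with h | h
      · exact (hJ2 a b h).subset
      · rw [h]
    refine ⟨?_, ?_, ?_, ?_⟩
    · intro h
      obtain ⟨a, ha⟩ := mem_iUnion.mp h
      exact (hid a).univ_notMem ha
    · exact mem_iUnion.mpr ⟨⟨0, Ordinal.omega_pos 1⟩, (hid _).empty_mem⟩
    · intro B hB C hC
      obtain ⟨a, ha⟩ := mem_iUnion.mp hB
      obtain ⟨b, hb⟩ := mem_iUnion.mp hC
      exact mem_iUnion.mpr ⟨max a b, (hid _).union_mem _ (hmono _ _ (le_max_left a b) ha) _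
        (hmono _ _ (le_max_right a b) hb)⟩
    · intro B hB C hCB
      obtain ⟨a, ha⟩ := mem_iUnion.mp hB
      exact mem_iUnion.mpr ⟨a, (hid a).subset_mem _ ha _ hCB⟩
  · rw [hun]
    intro K hK hsub
    refine Subset.antisymm hsub fun B hB => ?_
    by_contra hBJ
    have h1 : Bᶜ ∈ ⋃ a, J a := by
      by_contra h2
      exact hBJ ((hJ3 B).mpr h2)
    have h3 := hK.union_mem B hB Bᶜ (hsub h1)
    rw [union_compl_self] at h3
    exact hK.univ_notMem h3

end Pool.Agent.Results.MP_ea2126_lc.OmegaOneChain
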